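import Pool.Agent.H57.MC2289

set_option autoImplicit false

namespace Pool.Agent.Results.MP_b0ed8d_nt.G27

open Pool.Agent.H57.MC

/-- The number of lattice points `(a, b)` with `a ^ 2 + b ^ 2 ≤ k ^ 2`. -/
noncomputable def g (k : ℕ) : ℕ :=
  {p : ℤ × ℤ | p.1 ^ 2 + p.2 ^ 2 ≤ (k : ℤ) ^ 2}.ncard

theorem result : ¬ IsMC (g 27) := by
  have h : g 27 = 2289 := by
    unfold g
    rw [ncard_eq_countP 27 (fun p => decide (p.1 * p.1 + p.2 * p.2 ≤ 729)) _ ?_ ?_]
    · decide +kernel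
    · intro p
      simp only [Set.mem_ofPred_eq, decide_eq_true_eq, sq]
      norm_num
    · intro p hp
      simp only [Set.mem_ofPred_eq] at hp
      exact ⟨abs_le.2 (abs_le_of_sq_le_sq' (by nlinarith [sq_nonneg p.2]) (by positivity)),
        abs_le.2 (abs_le_of_sq_le_sq' (by nlinarith [sq_nonneg p.1]) (by positivity))⟩
  rw [h]
  exact MC2289.nonMC

end Pool.Agent.Results.MP_b0ed8d_nt.G27
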